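import Mathlib
import Pool.Agent.W51.FCC.Final

set_option autoImplicit false

namespace Pool.Agent.Results.MP_3c540c_co.PetersenOdd

open Pool.Agent.H126R2.CDC (MGraph)
open Pool.Agent.W51.FCC (PropertyP PetersenSubdivision)

/-- For odd `k`, no graph containing a subdivision of the Petersen graph has property `P_k`. -/
theorem result : ∀ k : ℕ, Odd k → ∀ (V E : Type) [Fintype V] [DecidableEq V] [Fintype E]
    [DecidableEq E] (G : MGraph V E), Nonempty (PetersenSubdivision G) → ¬ PropertyP k G := by
  intro k hk V E _ _ _ _ G hS
  exact Pool.Agent.W51.FCC.not_propertyP G k hk hS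

end Pool.Agent.Results.MP_3c540c_co.PetersenOdd
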